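import Pool.Agent.Q14.TG.Pi

/-! Amalgams of virtually fibered groups over infinite virtually cyclic virtual retracts are
virtually fibered. -/

set_option autoImplicit false

namespace Pool.Agent.Results.MP_9d1793_al.AmalgamsVirtuallyFibered

open Pool.Agent.Q14.TG

/-- `H` is fibered: there is a nontrivial homomorphism to `ℤ` with finitely generated kernel -/
def IsFibered (H : Type*) [Group H] : Prop :=
  ∃ φ : H →* Multiplicative ℤ, φ ≠ 1 ∧ φ.ker.FG

/-- `H` has a fibered subgroup of finite index -/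
def IsVirtuallyFibered (H : Type*) [Group H] : Prop :=
  ∃ K : Subgroup H, K.FiniteIndex ∧ IsFibered K

/-- Let `G₀` be an infinite virtually cyclic group, embedded by `i`, `j` as a virtual retract in the
virtually fibered groups `G₁`, `G₂`. Then the amalgamated free product of `G₁` and `G₂` along `G₀`
is virtually fibered. -/
theorem result {G₀ G₁ G₂ : Type} [Group G₀] [Group G₁] [Group G₂] (i : G₀ →* G₁) (j : G₀ →* G₂)
    (hi : Function.Injective i) (hj : Function.Injective j) (h₀ : InfiniteVirtuallyCyclic G₀)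
    (h₁ : IsVirtuallyFibered G₁) (h₂ : IsVirtuallyFibered G₂)
    (hri : IsVirtualRetract i.range) (hrj : IsVirtualRetract j.range) :
    IsVirtuallyFibered (Amalgam i j) := by
  obtain ⟨K₁, hK₁, φ₁, hφ₁, hfg₁⟩ := h₁
  obtain ⟨K₂, hK₂, φ₂, hφ₂, hfg₂⟩ := h₂
  obtain ⟨K, hK, φ, hφ, hfg⟩ := amalgam_fibered i j hi hj (of_fibered K₁ hK₁ φ₁ hφ₁ hfg₁)
    (of_fibered K₂ hK₂ φ₂ hφ₂ hfg₂) h₀ hri hrj
  refine ⟨K, hK, φ, ?_, hfg⟩
  rintro rfl
  obtain ⟨x, hx⟩ := hφ (Multiplicative.ofAdd 1)
  rw [MonoidHom.one_apply] at hx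
  exact absurd hx (by decide)

end Pool.Agent.Results.MP_9d1793_al.AmalgamsVirtuallyFibered
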